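import Pool.Agent.Lib.MP_d81877_alM.Defs
import Pool.Agent.Lib.MP_d81877_alC.Final
import Pool.Agent.Lib.MP_d81877_alG.Tri

/-!
# MP_d81877_al, part D: the assembly of the elements

From the pieces of part D (the map `p`, the pairs, the membership, the orthogonality and the
values on the commutative model) to the elements of the radical with the required matching
values.
-/

namespace D81877X

open Finset Function Pool.Agent.D818A MP_d81877_alI D81877ZF D81877M

set_option linter.unusedSectionVars false

section general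

variable {ι : Type*} [LinearOrder ι] {K : Type*} [Field K]

/-- the additive submodule of the images of the pairs -/
def UU [Fintype ι] (V : Finset ι) (b : ℕ) : Set (Z ι K) :=
  {z | ∃ x w, IsPair V b x w ∧ z = D V w}

/-- (T1) -/
def PT1 (ι : Type*) [LinearOrder ι] (K : Type*) [Field K]
    (Xi : Finset ι → Module.End K (Z ι K)) : Prop :=
  ∀ (V : Finset ι) (b : ℕ) (v : WW ι K), Dm V b v →
    D V (p V v) = 0 ∧ ∀ u : Z ι K, B0 V (Xi V u) (p V v) = 0

/-- (Z2) for the vector `β` -/
def PZ2 (V : Finset ι) (Xi : Module.End K (Z ι K)) (β : Z ι K) : Prop :=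
  ∀ w z : Z ι K, D V z = 0 → (∀ u : Z ι K, B0 V (Xi u) z = 0) → OddIn V w →
    D V w = β → B0 V w z = 0

theorem oddIn_of_hom {V : Finset ι} {b : ℕ} {z : Z ι K} (h : Hom V b z) : OddIn V z := by
  intro A B hp
  refine h A B fun h' => hp ⟨h'.1, h'.2.1, ?_⟩
  rw [h'.2.2]
  exact ⟨b, rfl⟩

/-- a pair whose image is `β` is in the radical -/
theorem rm_of_pair [Fintype ι] {Xi : Finset ι → Module.End K (Z ι K)} (h1 : PT1 ι K Xi)
    {V : Finset ι} {b : ℕ} {β : Z ι K} (h2 : PZ2 V (Xi V) β) {x : WW ι K} {w : Z ι K}
    (hx : IsPair V b x w) (hw : D V w = β) : Rm V b x where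
  dm := hx.dm
  orth y hy := by
    obtain ⟨e1, e3⟩ := h1 V b y hy
    rw [hx.pair y hy]
    exact h2 w _ e1 e3 (oddIn_of_hom hx.hom) hw

/-- the contraction of two adjacent sites on the model `Z` -/
def ca (i k : ι) (z : Z ι K) : Z ι K := fun A B =>
  z (insert k A) (insert k B) + z (insert i A) (insert i B) + z (insert i (insert k A)) B
    + z (insert i A) (insert k B) + z (insert k A) (insert i B)

/-- iterated contraction of adjacent sites, from the outside of the list -/
def cal : List (ι × ι) → Z ι K → Z ι K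
  | [], z => z
  | q :: l, z => cal l (ca q.1 q.2 z)

end general

section fin

open D81877C D81877G

variable {N : ℕ} {K : Type*} [Field K] [CharP K 2]

/-- (N), bridge: the matching functions of an element of the radical are the iterated
contractions of its image in `Z` -/
def PN (N : ℕ) (K : Type*) [Field K] : Prop :=
  ∀ (b m : ℕ) (x : Tup N → K), 4 * b + 4 ≤ N → Even N → InR univ b x →
    ∀ l : List (Fin N × Fin N), NC univ l → l.length + m = b →
      ∀ X : Finset (Fin N), X ⊆ univ \ (letters l).toFinset → X.card = 2 * m + 1 →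
        ∀ x0 ∈ X, nf univ m x l = cal l (D81877M.p univ x) (X.erase x0) {x0}

/-- the elements of the radical with the required values -/
theorem exists_element {b : ℕ} (hN : 4 * b + 4 ≤ N) (hE : Even N)
    {Xi : Finset (Fin N) → Module.End K (Z (Fin N) K)} (h1 : PT1 (Fin N) K Xi)
    (hB : PN N K) (β : Z (Fin N) K) (h2 : PZ2 univ (Xi univ) β)
    (hmem : β ∈ UU (K := K) (univ : Finset (Fin N)) b)
    (val : List (Fin N × Fin N) → K)
    (hval : ∀ l : List (Fin N × Fin N), NC univ l → ∀ m, l.length + m = b →
      ∃ X : Finset (Fin N), X ⊆ univ \ (letters l).toFinset ∧ X.card = 2 * m + 1 ∧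
        ∃ x0 ∈ X, cal l β (X.erase x0) {x0} = val l) :
    ∃ R : Tup N → K, InR univ b R ∧
      ∀ l : List (Fin N × Fin N), NC univ l → l.length ≤ b → nf univ (b - l.length) R l = val l := by
  obtain ⟨x, w, hx, hw⟩ := hmem
  have hR : InR univ b x := rm_iff.1 (rm_of_pair h1 h2 hx hw.symm)
  refine ⟨x, hR, fun l hl hlb => ?_⟩
  obtain ⟨X, hX, hXc, x0, hx0, hv⟩ := hval l hl (b - l.length) (by omega)
  rw [hB b (b - l.length) x hN hE hR l hl (by omega) X hX hXc x0 hx0, hx.px, ← hw]
  exact hv

end fin

end D81877X
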