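import Pool.Agent.Lib.MP_d81877_alX.Elements
import Pool.Agent.Lib.MP_d81877_alW.Final
import Pool.Agent.Lib.MP_d81877_alW.CoreC

/-!
# MP_d81877_al: (T3) from the chain words
-/

namespace D81877X

open Finset Function D81877G D81877C D81877M D81877W D81877Ch

/-- the core identity of the chain words -/
theorem hcore {ι : Type*} [LinearOrder ι] [Fintype ι] {K : Type*} [Field K] [CharP K 2]
    {V X : Finset ι} (he : Even X.card) (A B : Finset ι) :
    ∑ S ∈ outs V X, (MM K B A (D81877W.ltr S) (dl X)).trace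
      * gprod K (D81877W.ltr S) (dl X) (Sum.inl 3) (Sum.inl 0) = (dv K A B (dl X)).2 := by
  rw [← trace_core (K := K) (fun x => if x ∈ V then {0, 1} else ∅) A B (dl_nodup X)
    (by rw [dl_length]; exact he), ← sum_ltr, outs_eq]
  refine sum_congr ?_ fun S _ => rfl
  ext S
  simp only [mem_filter, mem_univ, true_and, mem_dl]

/-- (T3) -/
theorem ht3 (N : ℕ) (K : Type*) [Field K] [CharP K 2] : HT3 N K := fun _ _ hX hc =>
  ⟨_, isPair_of hX hc (fun A B _ _ => hcore (by rw [hc]; exact ⟨_ + 1, by ring⟩) A B) isRec_clZ⟩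

end D81877X
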