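import Pool.Agent.Lib.MP_d81877_alX.T1
import Pool.Agent.Lib.MP_d81877_alX.T3
import Pool.Agent.Lib.MP_d81877_alS.Statement

/-!
# MP_d81877_al: arbitrarily large first cohomology
-/

namespace D81877X

open Finset Function D81877G D81877C

/-- all elements which are needed -/
theorem elements (K : Type) [Field K] [CharP K 2] (r : ℕ) (h1 : HT1 (NN r) K)
    (h3 : HT3 (NN r) K) : MP_d81877_alY.Elements K r := by
  intro k hk
  have hlarge := NN_large r
  have hmod := NN_mod r
  have hE : Even (NN r) := Nat.even_iff.2 (by omega)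
  have hpow : 2 ^ k ≤ 2 ^ r := Nat.pow_le_pow_right (by norm_num) hk.le
  have hpos : 0 < 2 ^ k := by positivity
  have hs : 2 * (2 ^ k - 1) + 1 = 2 ^ (k + 1) - 1 := by
    rw [pow_succ]; omega
  have h := exists_R h1 h3 (b := 2 ^ r - 1) (s := 2 ^ k - 1) (by omega) hE (by omega)
  rw [hs] at h
  exact h

/-- arbitrarily large first cohomology -/
theorem big (r : ℕ) : Pool.Agent.MP_d81877_alF.Big r :=
  MP_d81877_alY.big_of_elements (fun K _ _ _ r _ => elements K r (ht1 _ K) (ht3 _ K)) r

end D81877X
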