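import Pool.Agent.Lib.MP_d81877_alP.Cyc
import Pool.Agent.Lib.MP_d81877_alP.Erel
import Pool.Agent.Lib.MP_d81877_alP.Pot

/-!
# MP_d81877_al: `D (p v) = 0`
-/

namespace D81877X

open Finset Function MP_d81877_alI MP_d81877_alP D81877ZF

variable {ι K : Type*} [LinearOrder ι] [Field K] [Fintype ι] [CharP K 2]

theorem cyc_maps' {C S : Finset ι} (hC : C ⊆ S) : ∀ x ∈ S, cyc C x ∈ S := by
  intro x hx
  by_cases h : x ∈ C
  · exact hC (cyc_mem.2 h)
  · rwa [cyc_fix h]

theorem sum_cyc (φ : ι → K) (C : Finset ι) : ∑ x ∈ C, (φ x + φ (cyc C x)) = 0 := by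
  rw [sum_add_distrib]
  have h : ∑ x ∈ C, φ (cyc C x) = ∑ x ∈ C, φ x := by
    refine sum_bij (fun x _ => cyc C x) (fun x hx => cyc_mem.2 hx)
      (fun x _ y _ h => (cyc C).injective h) (fun y hy => ?_) (fun _ _ => rfl)
    refine ⟨(cyc C).symm y, ?_, (cyc C).apply_symm_apply y⟩
    rw [← cyc_mem, (cyc C).apply_symm_apply]
    exact hy
  rw [h, CharTwo.add_self_eq_zero]

/-- a word sum of the wrong size vanishes -/
theorem hh_eq_zero {V F S : Finset ι} {b : ℕ} {v : WW ι K} (hv : Dm V b v) (hS : S ⊆ V)
    (hF : F ⊆ V) (hFS : Disjoint F S) (hc : S.card + 2 * F.card ≠ 2 * b + 1)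
    (s : Equiv.Perm ι) : hh V F S s v = 0 := by
  unfold hh
  refine sum_eq_zero fun I hI => ?_
  rw [mem_powerset] at hI
  apply hv.shp
  rintro ⟨-, h0, h1, -, -⟩
  change (V \ (F ∪ I)).card + b = V.card at h0
  change (V \ (F ∪ (S \ I))).card + (b + 1) = V.card at h1
  have e1 : F ∪ I ⊆ V := union_subset hF (hI.trans hS)
  have e2 : F ∪ (S \ I) ⊆ V := union_subset hF (sdiff_subset.trans hS)
  have c1 := card_sdiff_add_card_eq_card e1
  have c2 := card_sdiff_add_card_eq_card e2
  rw [card_union_of_disjoint (hFS.mono_right hI)] at c1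
  rw [card_union_of_disjoint (hFS.mono_right sdiff_subset)] at c2
  have c3 := card_sdiff_add_card_eq_card hI
  omega

/-- **`D (p v) = 0`** -/
theorem D_pm {V : Finset ι} {b : ℕ} {v : WW ι K} (hv : Dm V b v) : D V (pm V v) = 0 := by
  funext A B
  unfold D
  rw [LinearMap.sum_apply, Finset.sum_apply, Finset.sum_apply, Pi.zero_apply, Pi.zero_apply]
  have hterm : ∀ x, (f x * d x : Module.End K (Z ι K)) (pm V v) A B =
      if x ∈ B \ A then pm V v (insert x A) (B.erase x) else 0 := by
    intro x
    rw [Module.End.mul_apply, f_apply, d_apply]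
    by_cases h1 : x ∈ B <;> by_cases h2 : x ∈ A <;> simp [h1, h2]
  rw [sum_congr rfl fun x _ => hterm x]
  by_cases hAB : A ∪ B ⊆ V
  swap
  · refine sum_eq_zero fun x _ => ?_
    split_ifs with h
    · apply pm_of_not
      right
      intro h'
      apply hAB
      refine union_subset ((subset_insert x A).trans (subset_union_left.trans h')) ?_
      intro y hy
      by_cases hyx : y = x
      · subst hyx; exact h' (mem_union_left _ (mem_insert_self _ _))
      · exact h' (mem_union_right _ (mem_erase.2 ⟨hyx, hy⟩))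
    · rfl
  have hA : A ⊆ V := subset_union_left.trans hAB
  have hB : B ⊆ V := subset_union_right.trans hAB
  set C := B \ A with hC
  set S := (A \ B) ∪ (B \ A) with hS
  have hCS : C ⊆ S := subset_union_right
  have hCV : C ⊆ V := sdiff_subset.trans hB
  have hSV : S ⊆ V := union_subset (sdiff_subset.trans hA) hCV
  have hFV : A ∩ B ⊆ V := inter_subset_left.trans hA
  have hFS : Disjoint (A ∩ B) S := by
    rw [disjoint_left]
    intro x hx hx'
    rw [mem_inter] at hx
    rw [hS, mem_union, mem_sdiff, mem_sdiff] at hx'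
    tauto
  rw [sum_ite_mem_of_subset hCV]
  have hval : ∀ x ∈ C, (C.erase x).Nonempty → pm V v (insert x A) (B.erase x) =
      hh V (A ∩ B) S (Equiv.swap x (cyc C x) * cyc C) v := by
    intro x hx hne
    have hxB : x ∈ B := (mem_sdiff.1 hx).1
    have hxA : x ∉ A := (mem_sdiff.1 hx).2
    have e1 : B.erase x \ insert x A = C.erase x := by
      ext y; simp only [hC, mem_sdiff, mem_erase, mem_insert, not_or]; tauto
    have e2 : insert x A ∩ B.erase x = A ∩ B := by
      ext y; simp only [mem_inter, mem_erase, mem_insert]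
      by_cases hy : y = x
      · subst hy; simp [hxA]
      · simp [hy]
    have e3 : (insert x A \ B.erase x) ∪ (B.erase x \ insert x A) = S := by
      ext y
      simp only [hS, mem_union, mem_sdiff, mem_erase, mem_insert, not_or, not_and_or, not_not]
      by_cases hy : y = x
      · subst hy; simp [hxA, hxB]
      · simp [hy]
    rw [pm_of, e3, e2, e1, cyc_erase hx hne]
    · rw [e1]; exact hne.ne_empty
    · refine union_subset (insert_subset_iff.2 ⟨hB hxB, hA⟩) ((erase_subset _ _).trans hB)
  by_cases hc : S.card + 2 * (A ∩ B).card = 2 * b + 1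
  · obtain ⟨φ, hφ⟩ := exists_pot hv hSV hFV hFS hc (s := cyc C) (cyc_maps' hCS)
    rw [← sum_cyc φ C]
    refine sum_congr rfl fun x hx => ?_
    by_cases hne : (C.erase x).Nonempty
    · rw [hval x hx hne]
      exact hφ x (hCS hx) _ (hCS (cyc_mem.2 hx)) (cyc_ne hx hne).symm
    · have h1 : C = {x} := by
        rw [not_nonempty_iff_eq_empty] at hne
        rw [← insert_erase hx, hne]; rfl
      have h2 : cyc C x = x := by rw [h1, cyc_singleton]; rfl
      rw [h2, CharTwo.add_self_eq_zero]
      apply pm_of_not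
      left
      rw [not_nonempty_iff_eq_empty] at hne
      rw [← hne]
      ext y; simp only [hC, mem_sdiff, mem_erase, mem_insert, not_or]; tauto
  · refine sum_eq_zero fun x hx => ?_
    by_cases hne : (C.erase x).Nonempty
    · rw [hval x hx hne]
      exact hh_eq_zero hv hSV hFV hFS hc _
    · apply pm_of_not
      left
      rw [not_nonempty_iff_eq_empty] at hne
      rw [← hne]
      ext y; simp only [hC, mem_sdiff, mem_erase, mem_insert, not_or]; tauto

end D81877X
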