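import Pool.Agent.Lib.MP_d81877_alX.Glue
import Pool.Agent.Lib.MP_d81877_alN.PN
import Pool.Agent.Lib.MP_d81877_alN.Hval
import Pool.Agent.Lib.MP_d81877_alM.Base
import Pool.Agent.Lib.MP_d81877_alZL.Su
import Pool.Agent.Lib.MP_d81877_alZF.Xi
import Pool.Agent.Lib.MP_d81877_alT2.Main
import Pool.Agent.Lib.MP_d81877_alG.Last
import Pool.Agent.Lib.MP_d81877_alY.Final

/-!
# MP_d81877_al, part D: the elements of the radical from (T1), (T3) and the values
-/

namespace D81877X

open Finset Function Pool.Agent.D818A MP_d81877_alI D81877ZF D81877M D81877ZS D81877Ch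

set_option linter.unusedSectionVars false

section general

variable {ι : Type*} [LinearOrder ι] {K : Type*} [Field K] [CharP K 2]

/-- the two forms of the elementary symmetric vector agree -/
theorem chainRec_ta : ChainRec (fun W => (D81877ZL.ta W : Z ι K × Z ι K).1)
    (fun W => (D81877ZL.ta W : Z ι K × Z ι K).2) where
  t_nil := rfl
  a_nil := rfl
  t_cons _ _ _ _ := rfl
  a_cons x W _ _ := by
    show _ + ((W.length + 1 : ℕ) : K) • f x _ = _
    push_cast
    rfl

theorem ev_eq_etaE {V : Finset ι} (hV : Even V.card) (b : ℕ) :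
    (ev V (2 * b + 1) : Z ι K) = D81877ZL.etaE V (2 * b + 1) := by
  rw [← D81877ZL.aa_even V hV b, ← sum_a_eq chainRec_ta hV b]
  rfl

variable [Fintype ι]

theorem swp_univ (V : Finset ι) (b : ℕ) : Swp K V b := fun _ _ h _ hv => T2b hv h

theorem isRec_clZ : IsRec (K := K) (univ : Finset ι) (clZ ι K).tw (clZ ι K).aw :=
  isRec_of_cliff univ (clZ ι K) (fun _ _ => rfl) (fun _ _ => rfl) rfl

/-- the vector `β` of the block `S` -/
def bet (K : Type*) [Field K] [CharP K 2] (S : Finset ι) (b : ℕ) : Z ι K :=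
  D univ (Tl ((S.sort (· ≤ ·)).zip (S.sort (· ≤ ·)).tail) (ev univ (2 * b + 1)))

theorem bet_mem (hE : Even (Fintype.card ι)) {R S : Finset ι} (hV : (univ : Finset ι) = R ∪ S)
    (hRS : ∀ r ∈ R, ∀ x ∈ S, r < x) {b s : ℕ} (hS : S.card = 2 * s + 1) (hsb : s ≤ b)
    (hVb : 2 * b + 4 ≤ Fintype.card ι) (hC : Chn (K := K) (univ : Finset ι) b (clZ ι K).aw) :
    bet K S b ∈ UU (K := K) (univ : Finset ι) b := by
  have h1 := path_mem_Z (K := K) hV hRS hS hsb hVb
  have hE' : Even (univ : Finset ι).card := by rwa [card_univ]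
  rw [D81877ZL.su_aw_even hE' b, ← ev_eq_etaE hE' b] at h1
  exact exists_pair (swp_univ _ b) isRec_clZ hC (fun Q => (clZ ι K).Pw_eq Q) h1

theorem bet_PZ2 (S : Finset ι) (b : ℕ) :
    PZ2 (univ : Finset ι) (Xi univ) (bet K S b) := by
  intro w z hD hz hw hDw
  exact Z2 (fun p _ => ⟨mem_univ _, mem_univ _⟩) b hw hDw hD hz

end general

section fin

open D81877C D81877G

variable {N : ℕ} {K : Type*} [Field K] [CharP K 2]

/-- (T1) for `D81877ZF.Xi` -/
def HT1 (N : ℕ) (K : Type*) [Field K] : Prop :=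
  ∀ (V : Finset (Fin N)) (b : ℕ) (v : WW (Fin N) K), Dm V b v →
    D V (D81877M.p V v) = 0 ∧ ∀ u : Z (Fin N) K, B0 V (Xi V u) (D81877M.p V v) = 0

/-- (T3): the chain words -/
def HT3 (N : ℕ) (K : Type*) [Field K] [CharP K 2] : Prop :=
  ∀ b : ℕ, Chn (K := K) (univ : Finset (Fin N)) b (clZ (Fin N) K).aw

theorem card_Sl {N m : ℕ} (h : m ≤ N) : (Sl N m).card = m := by
  rw [Sl_eq, card_map, card_Sm h]

theorem val_bet {S : Finset (Fin N)} (hE : Even N) {l : List (Fin N × Fin N)} {b m : ℕ}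
    (hl : NC univ l) (hb : l.length + m = b) {X : Finset (Fin N)}
    (hX : X ⊆ univ \ (letters l).toFinset) (hXc : X.card = 2 * m + 1) {x : Fin N}
    (hx : x ∈ X) : cal l (bet K S b) (X.erase x) {x} = val K S l := by
  have hE' : Even (univ : Finset (Fin N)).card := by rwa [card_univ, Fintype.card_fin]
  have hX' : X ⊆ rest univ l := by
    intro y hy
    have := hX hy
    rw [mem_sdiff, List.mem_toFinset] at this
    exact mem_rest.2 this
  have h := D81877N.hval_cal (K := K) hE' hl (subset_univ S) hb hX' hXc hx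
  rw [D81877ZL.aa_even _ hE' b, ← ev_eq_etaE hE' b] at h
  unfold bet
  rw [Tl_path _ (Finset.sort_nodup _ _), Finset.sort_toFinset]
  exact h

/-- **the elements of the radical** -/
theorem exists_R (h1 : HT1 N K) (h3 : HT3 N K) {b s : ℕ} (hN : 4 * b + 4 ≤ N) (hE : Even N)
    (hsb : s ≤ b) : ∃ R : Tup N → K, InR univ b R ∧
      ∀ l : List (Fin N × Fin N), NC univ l → l.length ≤ b →
        nf univ (b - l.length) R l = val K (Sl N (2 * s + 1)) l := by
  have hc : (Sl N (2 * s + 1)).card = 2 * s + 1 := card_Sl (by omega)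
  have hE' : Even (Fintype.card (Fin N)) := by rwa [Fintype.card_fin]
  refine exists_element hN hE (Xi := Xi) h1 (D81877N.pn_all N K) (bet K (Sl N (2 * s + 1)) b) (bet_PZ2 _ _)
    (bet_mem hE' (R := univ \ Sl N (2 * s + 1)) ?_ ?_ hc hsb ?_ (h3 b)) _ ?_
  · rw [sdiff_union_of_subset (subset_univ _)]
  · intro r hr x hx
    rw [mem_sdiff, mem_Sl] at hr
    rw [mem_Sl] at hx
    rw [Fin.lt_def]
    omega
  · rw [Fintype.card_fin]; omega
  · intro l hl m hm
    have hgood := NC.good hl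
    have hcl := card_sdiff_letters hgood
    rw [card_univ, Fintype.card_fin] at hcl
    obtain ⟨X, hX, hXc⟩ := exists_subset_card_eq
      (s := univ \ (letters l).toFinset) (n := 2 * m + 1) (by omega)
    have hne : X.Nonempty := by rw [← card_pos]; omega
    obtain ⟨x, hx⟩ := hne
    exact ⟨X, hX, hXc, x, hx, val_bet hE hl hm hX hXc hx⟩

end fin

end D81877X
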