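import Pool.Agent.Lib.MP_d81877_alX.Elements
import Pool.Agent.Lib.MP_d81877_alX.DRel
import Pool.Agent.Lib.MP_d81877_alP.Bridge
import Pool.Agent.Lib.MP_d81877_alP15.Ez

/-!
# MP_d81877_al: (T1)
-/

namespace D81877X

open Finset Function D81877G D81877C MP_d81877_alI MP_d81877_alP D81877ZF

/-- (T1) -/
theorem ht1 (N : ℕ) (K : Type*) [Field K] [CharP K 2] : HT1 N K := by
  intro V b v hv
  rw [← pm_eq_p]
  exact ⟨D_pm hv, fun u => MP_d81877_alP15.B0_Xi_pm hv u⟩

end D81877X
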